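import Mathlib

/-!
Relations between submodules of a finitely generated abelian group are generated by relations
between few of them.
-/

set_option autoImplicit false

namespace Pool.Agent.Q109.Helly

open Submodule

section gens

variable {M : Type*} [AddCommGroup M]

/-- a submodule of a module with `r` generators has at most `r` generators -/
lemma gens_of_le {r : ℕ} {X : Submodule ℤ M} (v : Fin r → M) (hX : X = span ℤ (Set.range v))
    (T : Submodule ℤ M) (hT : T ≤ X) : ∃ (n : ℕ) (w : Fin n → M), n ≤ r ∧ T = span ℤ (Set.range w) := by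
  let f : (Fin r → ℤ) →ₗ[ℤ] M := Fintype.linearCombination ℤ v
  have hf : LinearMap.range f = X := by rw [hX]; exact Fintype.range_linearCombination ℤ v
  obtain ⟨n, b⟩ := Submodule.basisOfPid (Pi.basisFun ℤ (Fin r)) (T.comap f)
  refine ⟨n, fun i => f (b i), ?_, ?_⟩
  · have h1 := Module.finrank_eq_card_basis b
    have h2 := Submodule.finrank_le (T.comap f)
    rw [h1] at h2
    simpa using h2
  · have h1 : T = map f (T.comap f) := by
      rw [Submodule.map_comap_eq, hf, inf_eq_right.2 hT]
    have h2 : T.comap f = span ℤ (Set.range fun i => (b i : Fin r → ℤ)) := by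
      have := b.span_eq
      have h3 := congrArg (map (T.comap f).subtype) this
      rw [Submodule.map_span, Submodule.map_top, Submodule.range_subtype, ← Set.range_comp] at h3
      exact h3.symm
    conv_lhs => rw [h1, h2, Submodule.map_span, ← Set.range_comp]
    rfl

lemma mem_pT (p : ℕ) (T : Submodule ℤ M) (x : M) :
    x ∈ Ideal.span {(p : ℤ)} • T ↔ ∃ t ∈ T, (p : ℤ) • t = x := by
  rw [Submodule.ideal_span_singleton_smul, Submodule.mem_smul_pointwise_iff_exists]

/-- few of the submodules generate the sum up to prime-to-`p` index -/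
lemma exists_small_index {ι : Type*} [Fintype ι] [DecidableEq ι] (p : ℕ) [hp : Fact p.Prime] {r : ℕ}
    (w : Fin r → M) (S : ι → Submodule ℤ M) (hT : ⨆ i, S i = span ℤ (Set.range w)) :
    ∃ I : Finset ι, I.card ≤ r ∧ ∃ m : ℤ, (m - 1) ∈ Ideal.span {(p : ℤ)} ∧
      ∀ x ∈ ⨆ i, S i, m • x ∈ ⨆ i ∈ I, S i := by
  classical
  set T : Submodule ℤ M := ⨆ i, S i with hTdef
  -- a minimal subset generating modulo `p`
  obtain ⟨I, hI, hmin⟩ : ∃ I : Finset ι, T ≤ (⨆ i ∈ I, S i) ⊔ Ideal.span {(p : ℤ)} • T ∧
      ∀ i ∈ I, ¬ T ≤ (⨆ j ∈ I.erase i, S j) ⊔ Ideal.span {(p : ℤ)} • T := by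
    have hne : ∃ n, ∃ I : Finset ι, I.card = n ∧
        T ≤ (⨆ i ∈ I, S i) ⊔ Ideal.span {(p : ℤ)} • T :=
      ⟨_, Finset.univ, rfl, by
        have h : T ≤ ⨆ i ∈ (Finset.univ : Finset ι), S i := by simp [hTdef]
        exact h.trans le_sup_left⟩
    obtain ⟨I, hIc, hI⟩ := Nat.find_spec hne
    refine ⟨I, hI, fun i hi h => ?_⟩
    have h1 := Nat.find_min' hne ⟨I.erase i, rfl, h⟩
    rw [Finset.card_erase_of_mem hi, ← hIc] at h1
    have := Finset.card_pos.2 ⟨i, hi⟩
    omega
  refine ⟨I, ?_, ?_⟩
  · -- the size of `I`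
    have hx : ∀ i ∈ I, ∃ x ∈ S i, x ∉ (⨆ j ∈ I.erase i, S j) ⊔ Ideal.span {(p : ℤ)} • T := by
      intro i hi
      by_contra hcon
      push Not at hcon
      apply hmin i hi
      refine hI.trans (sup_le ?_ le_sup_right)
      refine iSup₂_le fun j hj => ?_
      by_cases hji : j = i
      · subst hji; exact fun x hx => hcon x hx
      · exact (le_iSup₂ (f := fun j (_ : j ∈ I.erase i) => S j) j
          (Finset.mem_erase.2 ⟨hji, hj⟩)).trans le_sup_left
    choose! x hxS hxn using hx
    have hxT : ∀ i ∈ I, x i ∈ span ℤ (Set.range w) := fun i hi => by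
      rw [← hT]; exact (le_iSup S i) (hxS i hi)
    have hA : ∀ i, ∃ A : Fin r → ℤ, i ∈ I → ∑ j, A j • w j = x i := by
      intro i
      by_cases hi : i ∈ I
      · obtain ⟨A, hA⟩ := (Submodule.mem_span_range_iff_exists_fun ℤ).1 (hxT i hi)
        exact ⟨A, fun _ => hA⟩
      · exact ⟨0, fun h => absurd h hi⟩
    choose A hA using hA
    by_contra hcard
    push Not at hcard
    let L : (I → ZMod p) →ₗ[ZMod p] (Fin r → ZMod p) :=
      { toFun := fun c j => ∑ i : I, c i * (A i j : ZMod p)
        map_add' := fun c d => by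
          ext j; simp [add_mul, Finset.sum_add_distrib]
        map_smul' := fun a c => by
          ext j; simp [mul_assoc, Finset.mul_sum] }
    have hker : LinearMap.ker L ≠ ⊥ := by
      apply LinearMap.ker_ne_bot_of_finrank_lt
      simpa using hcard
    obtain ⟨c, hc, hc0⟩ := Submodule.exists_mem_ne_zero_of_ne_bot hker
    obtain ⟨k, hk⟩ := Function.ne_iff.1 hc0
    let d : ι → ℤ := fun i => if h : i ∈ I then ((c ⟨i, h⟩).val : ℤ) else 0
    have hd : ∀ i : I, ((d i : ℤ) : ZMod p) = c i := fun i => by
      simp [d]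
    have hsum : ∑ i ∈ I, d i • x i ∈ Ideal.span {(p : ℤ)} • T := by
      have h1 : ∑ i ∈ I, d i • x i = ∑ j, (∑ i ∈ I, d i * A i j) • w j := by
        have : ∀ i ∈ I, d i • x i = ∑ j, (d i * A i j) • w j := fun i hi => by
          rw [← hA i hi, Finset.smul_sum]
          simp only [smul_smul]
        rw [Finset.sum_congr rfl this, Finset.sum_comm]
        refine Finset.sum_congr rfl fun j _ => ?_
        rw [Finset.sum_smul]
      rw [h1]
      refine Submodule.sum_mem _ fun j _ => ?_
      have h2 : ((∑ i ∈ I, d i * A i j : ℤ) : ZMod p) = 0 := by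
        have h3 := congrFun (LinearMap.mem_ker.1 hc) j
        change ∑ i : I, c i * (A i j : ZMod p) = 0 at h3
        rw [← h3]
        push_cast
        rw [← Finset.sum_coe_sort]
        refine Finset.sum_congr rfl fun i _ => ?_
        rw [hd i]
      rw [ZMod.intCast_zmod_eq_zero_iff_dvd] at h2
      obtain ⟨e, he⟩ := h2
      rw [he, mul_smul, mem_pT]
      exact ⟨e • w j, T.smul_mem _ (by rw [hT]; exact subset_span ⟨j, rfl⟩), rfl⟩
    -- hence `x k` lies in the smaller submodule
    apply hxn k k.2
    have hcop : IsCoprime (d k) (p : ℤ) := by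
      have h1 : ¬ (p : ℤ) ∣ d k := by
        intro h
        rw [← ZMod.intCast_zmod_eq_zero_iff_dvd, hd k] at h
        exact hk h
      have hpp : Prime (p : ℤ) := Nat.prime_iff_prime_int.1 hp.out
      exact ((Prime.coprime_iff_not_dvd hpp).2 h1).symm
    obtain ⟨u, v, huv⟩ := hcop
    have h1 : x k = u • (∑ i ∈ I, d i • x i) - u • (∑ i ∈ I.erase k, d i • x i) + (p : ℤ) • (v • x k) := by
      rw [← Finset.add_sum_erase I _ k.2, smul_add, add_sub_cancel_right, smul_smul, smul_smul,
        ← add_smul, mul_comm (p : ℤ), huv, one_smul]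
    rw [h1]
    refine add_mem (sub_mem ?_ ?_) ?_
    · exact Submodule.smul_mem _ _ (Submodule.mem_sup_right hsum)
    · refine Submodule.smul_mem _ _ (Submodule.mem_sup_left (Submodule.sum_mem _ fun i hi => ?_))
      exact Submodule.smul_mem _ _ (Submodule.mem_iSup_of_mem i
        (Submodule.mem_iSup_of_mem hi (hxS i (Finset.mem_of_mem_erase hi))))
    · refine Submodule.mem_sup_right ((mem_pT _ _ _).2 ⟨v • x k, ?_, rfl⟩)
      exact T.smul_mem _ ((le_iSup S k) (hxS k k.2))
  · -- Nakayama
    set SI : Submodule ℤ M := ⨆ i ∈ I, S i with hSI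
    have hfg : (map SI.mkQ T).FG := by
      rw [hT]
      exact (Submodule.fg_span (Set.finite_range w)).map _
    have hle : map SI.mkQ T ≤ Ideal.span {(p : ℤ)} • map SI.mkQ T := by
      rintro _ ⟨t, ht, rfl⟩
      obtain ⟨a, ha, b, hb, rfl⟩ := Submodule.mem_sup.1 (hI ht)
      obtain ⟨t', ht', rfl⟩ := (mem_pT _ _ _).1 hb
      rw [map_add, (Submodule.Quotient.mk_eq_zero SI).2 ha |> fun h => (show SI.mkQ a = 0 from h),
        zero_add, mem_pT]
      exact ⟨SI.mkQ t', ⟨t', ht', rfl⟩, (map_zsmul _ _ _).symm⟩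
    obtain ⟨m, hm, hmT⟩ := exists_sub_one_mem_and_smul_eq_zero_of_fg_of_le_smul _ _ hfg hle
    refine ⟨m, hm, fun x hx => ?_⟩
    have := hmT (SI.mkQ x) ⟨x, hx, rfl⟩
    rw [← map_zsmul] at this
    exact (Submodule.Quotient.mk_eq_zero SI).1 this

/-- Let `X` be generated by `r` elements, `S i ≤ X` and `ψ i` homomorphisms. If
`∑ ψ i (x i) = 0` for all relations `∑ x i = 0`, `x i ∈ S i`, supported on at most `r + 1` indices,
then this holds for all relations. -/
theorem relations_of_small {ι : Type*} [Fintype ι] [DecidableEq ι] {A : Type*} [AddCommGroup A]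
    {r : ℕ} {X : Submodule ℤ M} (v : Fin r → M) (hX : X = span ℤ (Set.range v))
    (S : ι → Submodule ℤ M) (hS : ∀ i, S i ≤ X) (ψ : ι → M →ₗ[ℤ] A)
    (h : ∀ J : Finset ι, J.card ≤ r + 1 → ∀ x : ι → M, (∀ i, x i ∈ S i) → (∀ i ∉ J, x i = 0) →
      ∑ i, x i = 0 → ∑ i, ψ i (x i) = 0)
    (x : ι → M) (hxS : ∀ i, x i ∈ S i) (hx0 : ∑ i, x i = 0) : ∑ i, ψ i (x i) = 0 := by
  classical
  obtain ⟨n, w, hn, hT⟩ := gens_of_le v hX (⨆ i, S i) (iSup_le hS)
  -- it suffices to kill the sum by an integer prime to `p`, for every `p`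
  have key : ∀ p : ℕ, p.Prime → ∃ m : ℤ, ¬ (p : ℤ) ∣ m ∧ m • ∑ i, ψ i (x i) = 0 := by
    intro p hp
    have := Fact.mk hp
    obtain ⟨I, hI, m, hm, hmT⟩ := exists_small_index p w S hT
    refine ⟨m, ?_, ?_⟩
    · intro hdvd
      rw [Ideal.mem_span_singleton] at hm
      have h1 : (p : ℤ) ∣ 1 := by
        have := dvd_sub hdvd hm
        simpa using this
      have h2 := Int.natAbs_dvd_natAbs.2 h1
      simp at h2
      exact hp.one_lt.ne' h2
    · -- express `m • x j` through the submodules with index in `I`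
      have hy : ∀ j, ∃ y : ι → M, (∀ i, y i ∈ S i) ∧ (∀ i ∉ I, y i = 0) ∧ ∑ i, y i = m • x j := by
        intro j
        have h1 : m • x j ∈ ⨆ i ∈ I, S i := hmT _ ((le_iSup S j) (hxS j))
        rw [Submodule.mem_iSup_finset_iff_exists_sum] at h1
        obtain ⟨μ, hμ⟩ := h1
        refine ⟨fun i => if i ∈ I then (μ i : M) else 0, fun i => ?_, fun i hi => ?_, ?_⟩
        · dsimp only
          split_ifs
          · exact (μ i).2
          · exact zero_mem _
        · dsimp only
          rw [if_neg hi]
        · rw [← hμ, ← Finset.sum_filter]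
          simp
      choose y hyS hyI hysum using hy
      -- the elementary relations
      have hel : ∀ j, ψ j (m • x j) = ∑ i, ψ i (y j i) := by
        intro j
        have h2 := h (insert j I) ((Finset.card_insert_le _ _).trans (by omega))
          (fun i => (if i = j then m • x j else 0) - y j i) (fun i => by
            refine sub_mem ?_ (hyS j i)
            split_ifs with hij
            · subst hij; exact Submodule.smul_mem _ _ (hxS _)
            · exact zero_mem _) (fun i hi => by
            have h3 : i ≠ j := fun h => hi (by rw [h]; exact Finset.mem_insert_self _ _)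
            have h4 : i ∉ I := fun h => hi (Finset.mem_insert_of_mem h)
            rw [if_neg h3, hyI j i h4, sub_zero]) (by
            rw [Finset.sum_sub_distrib, hysum]
            simp)
        simp only [map_sub, Finset.sum_sub_distrib] at h2
        rw [sub_eq_zero] at h2
        rw [← h2]
        rw [Finset.sum_eq_single j]
        · simp
        · intro i _ hij
          rw [if_neg hij, map_zero]
        · simp
      -- the remaining relation supported on `I`
      have hrest := h I (by omega) (fun i => ∑ j, y j i) (fun i => Submodule.sum_mem _ fun j _ => hyS j i)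
        (fun i hi => Finset.sum_eq_zero fun j _ => hyI j i hi) (by
          rw [Finset.sum_comm]
          simp only [hysum]
          rw [← Finset.smul_sum, hx0, smul_zero])
      rw [Finset.smul_sum]
      simp only [← map_zsmul, hel]
      rw [Finset.sum_comm]
      simpa only [map_sum] using hrest
  -- conclusion
  set z := ∑ i, ψ i (x i) with hz
  by_contra hne
  let a : Ideal ℤ := (LinearMap.ker (LinearMap.toSpanSingleton ℤ A z))
  have ha : a ≠ ⊤ := by
    intro htop
    have : (1 : ℤ) ∈ a := by rw [htop]; trivial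
    apply hne
    simpa [a] using this
  obtain ⟨mx, hmx, hle⟩ := Ideal.exists_le_maximal a ha
  obtain ⟨g, hg⟩ := (IsPrincipalIdealRing.principal mx).principal
  have hgp : mx.IsPrime := hmx.isPrime
  by_cases hg0 : g = 0
  · -- the zero ideal is not maximal
    obtain ⟨m, hm, hmz⟩ := key 2 Nat.prime_two
    have : m ∈ mx := hle (by simpa [a] using hmz)
    rw [hg, hg0] at this
    have hm0 : m = 0 := by simpa using this
    exact hm (by rw [hm0]; exact dvd_zero _)
  · have hpr : Prime g := (Ideal.span_singleton_prime hg0).1 (by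
      have : Ideal.span {g} = mx := hg.symm
      rw [this]; exact hgp)
    have hpn : g.natAbs.Prime := Int.prime_iff_natAbs_prime.1 hpr
    obtain ⟨m, hm, hmz⟩ := key _ hpn
    have : m ∈ mx := hle (by simpa [a] using hmz)
    rw [hg] at this
    have hd : g ∣ m := Ideal.mem_span_singleton.1 this
    exact hm (by rw [Int.natAbs_dvd]; exact hd)

end gens

end Pool.Agent.Q109.Helly
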