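import Pool.Agent.Q109.Helly.A

/-!
Closed subgroups of tori and their characters.
-/

set_option autoImplicit false

namespace Pool.Agent.Q109.Helly

open Submodule

section chars

variable {K : Type*} [Field K] {N : ℕ}

/-- the monomial character with exponent `a` -/
def mono (K : Type*) [Field K] {N : ℕ} (a : Fin N → ℤ) : (Fin N → Kˣ) →* Kˣ where
  toFun x := ∏ i, x i ^ a i
  map_one' := by simp
  map_mul' x y := by simp [mul_zpow, Finset.prod_mul_distrib]

lemma mono_apply (a : Fin N → ℤ) (x : Fin N → Kˣ) : mono K a x = ∏ i, x i ^ a i := rfl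

lemma mono_add (a b : Fin N → ℤ) (x : Fin N → Kˣ) : mono K (a + b) x = mono K a x * mono K b x := by
  simp [mono_apply, zpow_add, Finset.prod_mul_distrib]

lemma mono_neg (a : Fin N → ℤ) (x : Fin N → Kˣ) : mono K (-a) x = (mono K a x)⁻¹ := by
  simp [mono_apply]

lemma mono_nsmul_one (k : ℕ) (x : Fin N → Kˣ) : mono K (fun _ => (k : ℤ)) x = (∏ i, x i) ^ k := by
  simp [mono_apply, Finset.prod_pow]

/-- the monomials as characters of a subgroup with values in `K` -/
def monoK (H : Subgroup (Fin N → Kˣ)) (a : Fin N →₀ ℕ) : H →* K :=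
  (Units.coeHom K).comp ((mono K fun i => (a i : ℤ)).comp H.subtype)

lemma monoK_apply (H : Subgroup (Fin N → Kˣ)) (a : Fin N →₀ ℕ) (x : H) :
    monoK H a x = ∏ i, (x.1 i : K) ^ a i := by
  simp [monoK, mono_apply]

lemma eval_eq (f : MvPolynomial (Fin N) K) (x : Fin N → Kˣ) :
    MvPolynomial.eval (fun i => (x i : K)) f =
      ∑ a ∈ f.support, f.coeff a * ∏ i, (x i : K) ^ a i :=
  MvPolynomial.eval_eq' _ _

/-- the coefficients grouped by characters of `H` -/
noncomputable def grouped (H : Subgroup (Fin N → Kˣ)) (f : MvPolynomial (Fin N) K) : (H →* K) →₀ K :=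
  ∑ a ∈ f.support, Finsupp.single (monoK H a) (f.coeff a)

lemma grouped_apply (H : Subgroup (Fin N → Kˣ)) (f : MvPolynomial (Fin N) K) {W : Type*}
    [AddCommGroup W] [Module K W] (F : (H →* K) → W) :
    Finsupp.linearCombination K F (grouped H f) = ∑ a ∈ f.support, f.coeff a • F (monoK H a) := by
  unfold grouped
  rw [map_sum]
  simp only [Finsupp.linearCombination_single]

lemma linComb (H : Subgroup (Fin N → Kˣ)) (f : MvPolynomial (Fin N) K) (x : H) :
    Finsupp.linearCombination K (fun θ : H →* K => (θ : H → K)) (grouped H f) x =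
      MvPolynomial.eval (fun i => (x.1 i : K)) f := by
  rw [grouped_apply, eval_eq, Finset.sum_apply]
  refine Finset.sum_congr rfl fun a _ => ?_
  rw [Pi.smul_apply, monoK_apply, smul_eq_mul]

/-- closed subgroups are cut out by characters -/
theorem mem_of_chars (H : Subgroup (Fin N → Kˣ)) {I : Set (MvPolynomial (Fin N) K)}
    (hH : (H : Set (Fin N → Kˣ)) = {x | ∀ f ∈ I, MvPolynomial.eval (fun i => (x i : K)) f = 0})
    (x : Fin N → Kˣ) (hx : ∀ a : Fin N → ℤ, (∀ h ∈ H, mono K a h = 1) → mono K a x = 1) : x ∈ H := by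
  have hmem : x ∈ (H : Set (Fin N → Kˣ)) := by
    rw [hH]
    intro f hf
    have h0 : grouped H f = 0 := by
      have hli := linearIndependent_monoidHom H K
      apply (linearIndependent_iff.1 hli)
      ext y
      rw [linComb]
      have : y.1 ∈ (H : Set (Fin N → Kˣ)) := y.2
      rw [hH] at this
      exact this f hf
    -- evaluation at `x` factors through the restriction to `H`
    have hfac : ∀ a b : Fin N →₀ ℕ, monoK H a = monoK H b →
        (∏ i, (x i : K) ^ a i) = ∏ i, (x i : K) ^ b i := by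
      intro a b hab
      have h1 : ∀ h ∈ H, mono K (fun i => (a i : ℤ) - (b i : ℤ)) h = 1 := by
        intro h hh
        have h2 := DFunLike.congr_fun hab ⟨h, hh⟩
        have h3 : mono K (fun i => (a i : ℤ)) h = mono K (fun i => (b i : ℤ)) h := Units.ext h2
        have h4 : (fun i => (a i : ℤ) - (b i : ℤ)) = (fun i => (a i : ℤ)) + -(fun i => (b i : ℤ)) := by
          ext i; simp [sub_eq_add_neg]
        rw [h4, mono_add, mono_neg, h3, mul_inv_cancel]
      have h5 := hx _ h1
      have h4 : (fun i => (a i : ℤ) - (b i : ℤ)) = (fun i => (a i : ℤ)) + -(fun i => (b i : ℤ)) := by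
        ext i; simp [sub_eq_add_neg]
      rw [h4, mono_add, mono_neg, mul_inv_eq_one] at h5
      have h6 := congrArg (fun u : Kˣ => (u : K)) h5
      simpa [mono_apply] using h6
    classical
    let F : (H →* K) → K := fun θ =>
      if h : ∃ a, monoK H a = θ then ∏ i, (x i : K) ^ h.choose i else 0
    have hF : ∀ a, F (monoK H a) = ∏ i, (x i : K) ^ a i := by
      intro a
      have h : ∃ b, monoK H b = monoK H a := ⟨a, rfl⟩
      simp only [F, dif_pos h]
      exact hfac _ _ h.choose_spec
    have h1 := grouped_apply H f F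
    rw [h0, map_zero] at h1
    rw [eval_eq, h1]
    refine Finset.sum_congr rfl fun a _ => ?_
    rw [hF, smul_eq_mul]
  exact hmem

/-- a homomorphism to `Kˣ` is regular if and only if it is a monomial -/
theorem regular_iff (G : Subgroup (Fin N → Kˣ)) (χ : G →* Kˣ) :
    (∃ (f : MvPolynomial (Fin N) K) (k : ℕ), ∀ x : G,
      (χ x : K) * (∏ i, (x.1 i : K)) ^ k = MvPolynomial.eval (fun i => (x.1 i : K)) f) ↔
    ∃ a : Fin N → ℤ, ∀ x : G, χ x = mono K a x.1 := by
  classical
  constructor
  · rintro ⟨f, k, hf⟩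
    let θ : G →* K := (Units.coeHom K).comp (χ * (mono K fun _ => (k : ℤ)).comp G.subtype)
    have hθ : ∀ x : G, θ x = (χ x : K) * (∏ i, (x.1 i : K)) ^ k := by
      intro x
      simp [θ, mono_nsmul_one]
    have hli := linearIndependent_monoidHom G K
    have h0 : Finsupp.single θ 1 - grouped G f = 0 := by
      apply (linearIndependent_iff.1 hli)
      ext y
      rw [map_sub, Pi.sub_apply, linComb, Finsupp.linearCombination_single, one_smul, hθ, hf,
        sub_self]
      rfl
    have h1 : grouped G f θ ≠ 0 := by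
      have := DFunLike.congr_fun h0 θ
      rw [Finsupp.sub_apply, Finsupp.single_eq_same, Finsupp.zero_apply, sub_eq_zero] at this
      rw [← this]; exact one_ne_zero
    obtain ⟨a, ha⟩ : ∃ a, monoK G a = θ := by
      by_contra hcon
      push Not at hcon
      apply h1
      unfold grouped
      rw [Finsupp.finsetSum_apply]
      refine Finset.sum_eq_zero fun a _ => ?_
      rw [Finsupp.single_eq_of_ne (hcon a).symm]
    refine ⟨(fun i => (a i : ℤ)) + -(fun _ => (k : ℤ)), fun x => ?_⟩
    have h2 := DFunLike.congr_fun ha x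
    have h3 : mono K (fun i => (a i : ℤ)) x.1 = χ x * mono K (fun _ => (k : ℤ)) x.1 := Units.ext h2
    rw [mono_add, mono_neg, h3, mul_inv_cancel_right]
  · rintro ⟨a, ha⟩
    let k : ℕ := ∑ i, (a i).natAbs
    have hk : ∀ i, 0 ≤ a i + k := by
      intro i
      have : (a i).natAbs ≤ k := Finset.single_le_sum (f := fun i => (a i).natAbs)
        (fun _ _ => Nat.zero_le _) (Finset.mem_univ i)
      omega
    let b : Fin N →₀ ℕ := Finsupp.equivFunOnFinite.symm fun i => (a i + k).toNat
    have hb : ∀ i, ((b i : ℕ) : ℤ) = a i + k := fun i => by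
      simp only [b, Finsupp.equivFunOnFinite_symm_apply_apply]
      exact Int.toNat_of_nonneg (hk i)
    refine ⟨MvPolynomial.monomial b 1, k, fun x => ?_⟩
    rw [MvPolynomial.eval_monomial, one_mul, ha]
    have h1 : mono K (fun i => ((b i : ℕ) : ℤ)) x.1 = mono K a x.1 * (∏ i, x.1 i) ^ k := by
      have h3 : (fun i => ((b i : ℕ) : ℤ)) = a + fun _ => (k : ℤ) := by
        funext i
        simp [hb]
      rw [← mono_nsmul_one, ← mono_add, h3]
    have h2 := congrArg (fun u : Kˣ => (u : K)) h1
    simp only [Units.val_mul, Units.val_pow_eq_pow_val, Units.coe_prod] at h2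
    rw [← h2]
    simp only [mono_apply, zpow_natCast, Units.coe_prod, Units.val_pow_eq_pow_val]
    rw [Finsupp.prod_fintype _ _ (by simp)]

end chars

section defs

variable {K : Type*} [Field K] {N : ℕ}

/-- A Zariski closed subset of the diagonal group `(Kˣ)^N`. -/
def IsZariskiClosed (S : Set (Fin N → Kˣ)) : Prop :=
  ∃ I : Set (MvPolynomial (Fin N) K),
    S = {x | ∀ f ∈ I, MvPolynomial.eval (fun i => (x i : K)) f = 0}

/-- A Zariski closed coset `gH` in `G`: `g ∈ G` and `H ≤ G` is a Zariski closed subgroup. -/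
def IsClosedCoset (G : Subgroup (Fin N → Kˣ)) (C : Set (Fin N → Kˣ)) : Prop :=
  ∃ g ∈ G, ∃ H : Subgroup (Fin N → Kˣ), H ≤ G ∧ IsZariskiClosed (H : Set (Fin N → Kˣ)) ∧
    C = {x | ∃ h ∈ H, g * h = x}

/-- Finitely many Zariski closed cosets in `G` with empty intersection contain a subfamily of at
most `d` cosets with empty intersection. -/
def HellyProperty (G : Subgroup (Fin N → Kˣ)) (d : ℕ) : Prop :=
  ∀ F : Finset (Set (Fin N → Kˣ)), (∀ C ∈ F, IsClosedCoset G C) → (⋂ C ∈ F, C) = ∅ →
    ∃ F' ⊆ F, F'.card ≤ d ∧ (⋂ C ∈ F', C) = ∅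

/-- The character group of `G`: the homomorphisms `G → Kˣ` which are morphisms of varieties, that
is, of the form `x ↦ f(x) / (x₁ ⋯ x_N)^k` with a polynomial `f`. -/
def characterGroup (G : Subgroup (Fin N → Kˣ)) : Subgroup (G →* Kˣ) where
  carrier := {χ | ∃ (f : MvPolynomial (Fin N) K) (k : ℕ), ∀ x : G,
    (χ x : K) * (∏ i, (x.1 i : K)) ^ k = MvPolynomial.eval (fun i => (x.1 i : K)) f}
  mul_mem' := by
    rintro χ₁ χ₂ ⟨f, k, hf⟩ ⟨g, l, hg⟩
    refine ⟨f * g, k + l, fun x => ?_⟩
    rw [map_mul, ← hf, ← hg, MonoidHom.mul_apply, Units.val_mul]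
    ring
  one_mem' := ⟨1, 0, fun x => by simp⟩
  inv_mem' := by
    intro χ h
    obtain ⟨a, ha⟩ := (regular_iff G χ).1 h
    exact (regular_iff G χ⁻¹).2 ⟨-a, fun x => by rw [mono_neg, ← ha]; rfl⟩

end defs

end Pool.Agent.Q109.Helly
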