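import Pool.Agent.Q109.Helly.B

/-!
The Helly dimension of a diagonalizable group.
-/

set_option autoImplicit false

namespace Pool.Agent.Q109.Helly

open Submodule

section main

variable {K : Type*} [Field K] {N : ℕ}

/-- characters as an additive group -/
def Ch (G : Subgroup (Fin N → Kˣ)) : Type _ := Additive (G →* Kˣ)

instance (G : Subgroup (Fin N → Kˣ)) : AddCommGroup (Ch G) :=
  inferInstanceAs (AddCommGroup (Additive (G →* Kˣ)))

/-- a character as an element of `Ch G` -/
def toCh (G : Subgroup (Fin N → Kˣ)) (χ : G →* Kˣ) : Ch G := χ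

/-- an element of `Ch G` as a character -/
def ofCh (G : Subgroup (Fin N → Kˣ)) (χ : Ch G) : G →* Kˣ := χ

/-- a subgroup of characters as a `ℤ`-submodule -/
def sub (G : Subgroup (Fin N → Kˣ)) (A : Subgroup (G →* Kˣ)) : Submodule ℤ (Ch G) :=
  AddSubgroup.toIntSubmodule
    { carrier := {χ | ofCh G χ ∈ A}
      add_mem' := fun {a b} (ha : ofCh G a ∈ A) (hb : ofCh G b ∈ A) => A.mul_mem ha hb
      zero_mem' := A.one_mem
      neg_mem' := fun {a} (ha : ofCh G a ∈ A) => A.inv_mem ha }

lemma mem_sub (G : Subgroup (Fin N → Kˣ)) (A : Subgroup (G →* Kˣ)) (χ : Ch G) :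
    χ ∈ sub G A ↔ ofCh G χ ∈ A := Iff.rfl

/-- the characters trivial on `H` -/
def annih (G H : Subgroup (Fin N → Kˣ)) : Subgroup (G →* Kˣ) where
  carrier := {χ | χ ∈ characterGroup G ∧ ∀ h : G, h.1 ∈ H → χ h = 1}
  mul_mem' := by
    rintro χ₁ χ₂ ⟨h1, h2⟩ ⟨h3, h4⟩
    exact ⟨mul_mem h1 h3, fun h hh => by rw [MonoidHom.mul_apply, h2 h hh, h4 h hh, one_mul]⟩
  one_mem' := ⟨one_mem _, fun _ _ => rfl⟩
  inv_mem' := by
    rintro χ ⟨h1, h2⟩
    exact ⟨inv_mem h1, fun h hh => by rw [MonoidHom.inv_apply, h2 h hh, inv_one]⟩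

/-- evaluation of characters at a point of `G` -/
def ev (G : Subgroup (Fin N → Kˣ)) (g : G) : Ch G →ₗ[ℤ] Additive Kˣ :=
  AddMonoidHom.toIntLinearMap
    { toFun := fun χ => Additive.ofMul (ofCh G χ g)
      map_zero' := rfl
      map_add' := fun _ _ => rfl }

lemma ev_apply (G : Subgroup (Fin N → Kˣ)) (g : G) (χ : Ch G) :
    ev G g χ = Additive.ofMul (ofCh G χ g) := rfl

/-- the restriction of a monomial character -/
def resChar (G : Subgroup (Fin N → Kˣ)) (a : Fin N → ℤ) : G →* Kˣ := (mono K a).comp G.subtype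

lemma resChar_mem (G : Subgroup (Fin N → Kˣ)) (a : Fin N → ℤ) : resChar G a ∈ characterGroup G :=
  (regular_iff G _).2 ⟨a, fun _ => rfl⟩

noncomputable instance [IsAlgClosed K] : DivisibleBy (Additive Kˣ) ℤ :=
  divisibleByOfSMulRightSurj _ _ (by
    intro n hn u
    have hpos : 0 < n.natAbs := Int.natAbs_pos.2 hn
    obtain ⟨z, hz⟩ := IsAlgClosed.exists_pow_nat_eq ((u.toMul : Kˣ) : K) hpos
    have hz0 : z ≠ 0 := by
      rintro rfl
      rw [zero_pow hpos.ne'] at hz
      exact (u.toMul : Kˣ).ne_zero hz.symm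
    have h1 : (Units.mk0 z hz0) ^ n.natAbs = u.toMul := Units.ext (by simpa using hz)
    rcases Int.natAbs_eq n with h | h
    · refine ⟨Additive.ofMul (Units.mk0 z hz0), ?_⟩
      change n • Additive.ofMul (Units.mk0 z hz0) = u
      rw [h, natCast_zsmul, ← ofMul_pow, h1]; rfl
    · refine ⟨-Additive.ofMul (Units.mk0 z hz0), ?_⟩
      change n • -Additive.ofMul (Units.mk0 z hz0) = u
      rw [h, neg_smul, smul_neg, neg_neg, natCast_zsmul, ← ofMul_pow, h1]; rfl)

/-- the exponents of monomials trivial on `H` -/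
def perp (H : Subgroup (Fin N → Kˣ)) : Submodule ℤ (Fin N → ℤ) :=
  AddSubgroup.toIntSubmodule
    { carrier := {a | ∀ h ∈ H, mono K a h = 1}
      add_mem' := fun {a b} ha hb h hh => by rw [mono_add, ha h hh, hb h hh, one_mul]
      zero_mem' := fun h _ => by simp [mono_apply]
      neg_mem' := fun {a} ha h hh => by rw [mono_neg, ha h hh, inv_one] }

lemma mem_perp (H : Subgroup (Fin N → Kˣ)) (a : Fin N → ℤ) :
    a ∈ perp H ↔ ∀ h ∈ H, mono K a h = 1 := Iff.rfl

/-- evaluation of monomials at a point -/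
def evm (g : Fin N → Kˣ) : (Fin N → ℤ) →ₗ[ℤ] Additive Kˣ :=
  AddMonoidHom.toIntLinearMap
    { toFun := fun a => Additive.ofMul (mono K a g)
      map_zero' := by simp [mono_apply]
      map_add' := fun a b => by rw [mono_add]; rfl }

lemma evm_apply (g : Fin N → Kˣ) (a : Fin N → ℤ) : evm g a = Additive.ofMul (mono K a g) := rfl

/-- compatible characters have a common extension -/
theorem exists_point [IsAlgClosed K] {ι : Type*} [Fintype ι] [DecidableEq ι] (g : ι → Fin N → Kˣ)
    (P : ι → Submodule ℤ (Fin N → ℤ))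
    (h : ∀ a : ι → Fin N → ℤ, (∀ i, a i ∈ P i) → ∑ i, a i = 0 → ∑ i, evm (g i) (a i) = 0) :
    ∃ x : Fin N → Kˣ, ∀ i, ∀ a ∈ P i, mono K a x = mono K a (g i) := by
  let f : (∀ i, P i) →ₗ[ℤ] (Fin N → ℤ) := ∑ i, (P i).subtype ∘ₗ LinearMap.proj i
  have hf : ∀ d, f d = ∑ i, (d i : Fin N → ℤ) := fun d => by simp [f]
  let ψ : (∀ i, P i) →ₗ[ℤ] Additive Kˣ := ∑ i, (evm (g i) ∘ₗ (P i).subtype) ∘ₗ LinearMap.proj i
  have hψ : ∀ d, ψ d = ∑ i, evm (g i) (d i) := fun d => by simp [ψ]
  have hker : LinearMap.ker f ≤ LinearMap.ker ψ := by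
    intro d hd
    rw [LinearMap.mem_ker, hf] at hd
    rw [LinearMap.mem_ker, hψ]
    exact h _ (fun i => (d i).2) hd
  let f' : ((∀ i, P i) ⧸ LinearMap.ker f) →ₗ[ℤ] (Fin N → ℤ) := (LinearMap.ker f).liftQ f le_rfl
  have hf' : Function.Injective f' := by
    rw [← LinearMap.ker_eq_bot]
    exact Submodule.ker_liftQ_eq_bot _ _ _ le_rfl
  let ψ' : ((∀ i, P i) ⧸ LinearMap.ker f) →ₗ[ℤ] Additive Kˣ := (LinearMap.ker f).liftQ ψ hker
  obtain ⟨Φ, hΦ⟩ := (Module.Baer.of_divisible (Additive Kˣ)).extension_property f' hf' ψ'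
  have hΦ' : ∀ d, Φ (f d) = ψ d := fun d => by
    have := LinearMap.congr_fun hΦ ((LinearMap.ker f).mkQ d)
    simpa [f', ψ'] using this
  refine ⟨fun j => (Φ (Pi.single j 1)).toMul, fun i a ha => ?_⟩
  have h1 : Additive.ofMul (mono K a fun j => (Φ (Pi.single j 1)).toMul) = Φ a := by
    have h2 : a = ∑ j, a j • (Pi.single j (1 : ℤ) : Fin N → ℤ) := by
      ext l
      simp [Finset.sum_apply, Pi.single_apply]
    conv_rhs => rw [h2, map_sum]
    rw [mono_apply, ofMul_prod]
    refine Finset.sum_congr rfl fun j _ => ?_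
    rw [map_smul]
    rfl
  have h3 : Φ a = Additive.ofMul (mono K a (g i)) := by
    let d : ∀ i, P i := Pi.single i ⟨a, ha⟩
    have h4 : f d = a := by
      rw [hf, Finset.sum_eq_single i]
      · simp [d]
      · intro j _ hj
        simp [d, Pi.single_eq_of_ne hj]
      · simp
    have h5 : ψ d = evm (g i) a := by
      rw [hψ, Finset.sum_eq_single i]
      · simp [d]
      · intro j _ hj
        simp [d, Pi.single_eq_of_ne hj]
      · simp
    rw [← h4, hΦ', h5, h4]; rfl
  exact Additive.ofMul.injective (h1.trans h3)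

/-- `G` has the Helly property with number `1 + r` if `X(G)` is generated by `r` elements -/
theorem hellyProperty [IsAlgClosed K] (G : Subgroup (Fin N → Kˣ)) {r : ℕ} (v : Fin r → Ch G)
    (hv : sub G (characterGroup G) = span ℤ (Set.range v)) : HellyProperty G (1 + r) := by
  classical
  intro F hF hempty
  by_contra hcon
  push Not at hcon
  have hsub : ∀ F' ⊆ F, F'.card ≤ 1 + r → ∃ x, ∀ C ∈ F', x ∈ C := by
    intro F' hF' hc
    obtain ⟨x, hx⟩ := hcon F' hF' hc
    exact ⟨x, fun C hC => Set.mem_iInter₂.1 hx C hC⟩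
  -- the family
  have hch : ∀ i : F, ∃ g ∈ G, ∃ H : Subgroup (Fin N → Kˣ), H ≤ G ∧
      IsZariskiClosed (H : Set (Fin N → Kˣ)) ∧ i.1 = {x | ∃ h ∈ H, g * h = x} := fun i => hF i.1 i.2
  choose g hg H hHG hHc hC using hch
  have hrel := relations_of_small v hv (fun i : F => sub G (annih G (H i)))
    (fun i χ hχ => ((mem_sub _ _ _).1 hχ).1) (fun i => ev G ⟨g i, hg i⟩) (by
      intro J hJ x hxS hxJ hx0
      obtain ⟨y, hy⟩ := hsub (J.map (Function.Embedding.subtype _)) (fun C hC => by
        obtain ⟨i, _, rfl⟩ := Finset.mem_map.1 hC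
        exact i.2) (by rw [Finset.card_map]; omega)
      have hyJ : ∀ i ∈ J, ∃ h ∈ H i, g i * h = y := fun i hi => by
        have := hy i.1 (Finset.mem_map.2 ⟨i, hi, rfl⟩)
        rw [hC i] at this
        exact this
      rcases J.eq_empty_or_nonempty with rfl | ⟨i0, hi0⟩
      · refine Finset.sum_eq_zero fun i _ => ?_
        rw [hxJ i (by simp), map_zero]
      · have hyG : y ∈ G := by
          obtain ⟨h, hh, rfl⟩ := hyJ i0 hi0
          exact mul_mem (hg i0) (hHG i0 hh)
        have h1 : ∀ i, ev G ⟨g i, hg i⟩ (x i) = ev G ⟨y, hyG⟩ (x i) := by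
          intro i
          by_cases hi : i ∈ J
          · obtain ⟨h, hh, hgy⟩ := hyJ i hi
            have h2 : (⟨y, hyG⟩ : G) = ⟨g i, hg i⟩ * ⟨h, hHG i hh⟩ := Subtype.ext hgy.symm
            have h3 : ofCh G (x i) ⟨h, hHG i hh⟩ = 1 := ((mem_sub _ _ _).1 (hxS i)).2 _ hh
            rw [ev_apply, ev_apply, h2, map_mul, h3, mul_one]
          · rw [hxJ i hi, map_zero, map_zero]
        rw [Finset.sum_congr rfl fun i _ => h1 i, ← map_sum, hx0, map_zero])
  -- the common point
  obtain ⟨x, hx⟩ := exists_point (fun i : F => g i) (fun i : F => perp (H i)) (by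
    intro a haP ha0
    have h1 := hrel (fun i => toCh G (resChar G (a i))) (fun i => by
      refine (mem_sub _ _ _).2 ⟨resChar_mem G _, fun h hh => ?_⟩
      exact (mem_perp _ _).1 (haP i) _ hh) (by
      have h2 : ∀ s : Finset F, ∑ i ∈ s, toCh G (resChar G (a i)) = toCh G (resChar G (∑ i ∈ s, a i)) := by
        intro s
        induction s using Finset.induction_on with
        | empty =>
          rw [Finset.sum_empty, Finset.sum_empty]
          have : resChar G 0 = 1 := by
            ext x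
            simp [resChar, mono_apply]
          rw [this]; rfl
        | insert i s hi ih =>
          rw [Finset.sum_insert hi, Finset.sum_insert hi, ih]
          have : resChar G (a i + ∑ i ∈ s, a i) = resChar G (a i) * resChar G (∑ i ∈ s, a i) := by
            ext x
            simp [resChar, mono_add]
          rw [this]; rfl
      rw [h2, ha0]
      have : resChar G 0 = 1 := by
        ext x
        simp [resChar, mono_apply]
      rw [this]; rfl)
    exact h1)
  have hall : x ∈ ⋂ C ∈ F, C := by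
    refine Set.mem_iInter₂.2 fun C hCF => ?_
    let i : F := ⟨C, hCF⟩
    change x ∈ i.1
    rw [hC i]
    obtain ⟨I, hI⟩ := hHc i
    refine ⟨(g i)⁻¹ * x, mem_of_chars (H i) hI _ fun a ha => ?_, by rw [mul_inv_cancel_left]⟩
    rw [map_mul, map_inv, hx i a ((mem_perp _ _).2 ha), inv_mul_cancel]
  rw [hempty] at hall
  exact hall

end main

end Pool.Agent.Q109.Helly
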